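import Pool.Agent.Lib.L8.PU.Stm
import Pool.Agent.Lib.L8.PM.Main
import Pool.Agent.Lib.L8.MainU

/-!
# The universal density theorem: the equivalence of the two forms of the statement
-/

namespace Pool.Agent.Lib.L8.PU

open MeasureTheory Matrix NumberField IsDedekindDomain Pool.Agent.Lib.L8.PM

noncomputable section

/-! ## The operators -/

section ops

variable {H : Type} [Group H]

theorem nrm_le {Γ : Subgroup H} {H' : Set H} {f : H → ℂ} {B : ENNReal} (h : ∀ R : Finset H, (∀ x ∈ R, x ∈ H') → (∀ x ∈ R, ∀ y ∈ R, x * y⁻¹ ∈ Γ → x = y) → ∑ x ∈ R, ‖f x‖ₑ ^ 2 ≤ B) : nrm Γ H' f ≤ B := by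
  unfold nrm
  exact iSup_le fun R => iSup_le fun h1 => iSup_le fun h2 => h R h1 h2

theorem le_nrm {Γ : Subgroup H} {H' : Set H} (f : H → ℂ) {R : Finset H} (h1 : ∀ x ∈ R, x ∈ H') (h2 : ∀ x ∈ R, ∀ y ∈ R, x * y⁻¹ ∈ Γ → x = y) : ∑ x ∈ R, ‖f x‖ₑ ^ 2 ≤ nrm Γ H' f := by
  unfold nrm
  exact le_iSup_of_le R (le_iSup_of_le h1 (le_iSup_of_le h2 le_rfl))

theorem sum_ofReal (R : Finset H) (f : H → ℂ) : ∑ x ∈ R, ‖f x‖ₑ ^ 2 = ENNReal.ofReal (∑ x ∈ R, ‖f x‖ ^ 2) := by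
  rw [ENNReal.ofReal_sum_of_nonneg fun x _ => by positivity]
  exact Finset.sum_congr rfl fun x _ => by rw [ENNReal.ofReal_pow (norm_nonneg _), ofReal_norm]

/-- The two forms of the condition on the operator. -/
theorem heOp_of {Γ : Subgroup H} {H' : Set H} {m : ℕ} {w : Fin m → H} {e : Fin m → ℂ} {Λ : ℝ} (h : HeOp Γ H' w e Λ) : L8.HeOp Γ H' w e Λ where
  mem := h.mem
  inv := h.inv
  nrm := by
    intro f hf B hB R hR hR'
    have hB0 : 0 ≤ B := by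
      have h1 := hB ∅ (by simp) (by simp)
      rwa [Finset.sum_empty] at h1
    have h1 : nrm Γ H' f ≤ ENNReal.ofReal B := nrm_le fun R h1 h2 => by
      rw [sum_ofReal]
      exact ENNReal.ofReal_le_ofReal (hB R h1 h2)
    have h2 := (le_nrm (fun x => ∑ a, e a * f (w a * x)) hR hR').trans ((h.norm f hf).trans (mul_le_mul_right h1 _))
    rw [sum_ofReal, ← ENNReal.ofReal_mul (sq_nonneg _)] at h2
    exact (ENNReal.ofReal_le_ofReal_iff (mul_nonneg (sq_nonneg _) hB0)).1 h2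

end ops

variable {ι M N : Type} [Fintype ι] [DecidableEq ι] [AddCommGroup M] [Module ℚ M] [AddCommGroup N] [Module ℚ N]
  {P : RootPairing ι ℚ M N} [P.IsCrystallographic] {b : P.Base} {K L : Type} [Field K] [NumberField K] [Field L] [NumberField L] [Algebra K L] (Q : QS b K L)

variable (𝔫 : Ideal (𝓞 K)) (v : HeightOneSpectrum (𝓞 K)) (r s : ℕ)

theorem hg_of {g : GL' b L} (h : g ∈ HG 𝔫 v (GL' b L)) : g ∈ L1S.HGL b L 𝔫 v := by
  obtain ⟨j, hj⟩ := h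
  exact ⟨j, fun i k => ⟨fun y hy => (hj i k y hy).1, fun y hy => (hj i k y hy).2⟩⟩

theorem hg_eq : HG 𝔫 v (GL' b L) = L1S.HGL b L 𝔫 v := by
  ext g
  refine ⟨hg_of 𝔫 v, fun ⟨j, hj⟩ => ⟨j, fun i k y hy => ⟨(hj i k).1 y hy, (hj i k).2 y hy⟩⟩⟩

variable [P.IsRootSystem]

theorem mc_of {i : b.support} {f : ℕ} {X : Matrix (b.support ⊕ ι) (b.support ⊕ ι) L} (h : MC b v i f X) : L8.MCl b v i f X := fun g y hy => (intV_iff v _).1 (h g y hy)

theorem mr_of {i : b.support} {f : ℕ} {X : Matrix (b.support ⊕ ι) (b.support ⊕ ι) L} (h : MR b v i f X) : L8.MRl b v i f X := fun g y hy => (intV_iff v _).1 (h g y hy)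

theorem sz_of {a : ι → (mixedEmbedding.mixedSpace L)ˣ} {Rb : b.support → ℝ} {f : b.support → ℕ}
    (h : Sz b ((Ideal.absNorm v.asIdeal : ℝ) ^ Module.finrank K L) ((Ideal.absNorm 𝔫 : ℝ) ^ Module.finrank K L) (fun i => ∏ β ∈ Phi b i, nm (nrL L) (eL L) (a β : mixedEmbedding.mixedSpace L)) Rb f) :
    L8.SzU b L 𝔫 v (fun i j => (f i : ℤ) + f j) Rb (L8.Ea b a) := by
  intro i j hO
  have e : ∀ i j : b.support, L8.Ea b a i j = (∏ β ∈ Phi b i, nm (nrL L) (eL L) (a β : mixedEmbedding.mixedSpace L)) * ∏ β ∈ Phi b j, nm (nrL L) (eL L) (a β : mixedEmbedding.mixedSpace L) := by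
    intro i j
    simp only [nm_eq]
    rfl
  have e1 : ((Ideal.absNorm v.asIdeal : ℝ) ^ ((f i : ℤ) + f j)) ^ Module.finrank K L = ((Ideal.absNorm v.asIdeal : ℝ) ^ Module.finrank K L) ^ (f i + f j) := by
    rw [← Nat.cast_add, zpow_natCast, ← pow_mul, ← pow_mul, mul_comm]
  rw [e1, e]
  rcases h i j hO with h1 | ⟨l, T, hT, h1⟩
  · refine Or.inl (h1.trans (le_of_eq ?_))
    rw [← pow_mul, ← pow_mul, mul_comm (Module.finrank K L)]
    rfl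
  · refine Or.inr ⟨l, T, hT, h1.trans (le_of_eq ?_)⟩
    rw [real_swap]
    rfl

/-- **The statement**. -/
theorem est [P.IsReduced] [P.IsIrreducible] [IsGalois K L] :
    EstCl K (h0 b) (GQ Q) (mixedEmbedding L) (fun i => (Sum.inl i, Sum.inr (P.reflectionPerm i i))) (sp Q) (nrL L) (eL L) (fun i => (Phi b i).card) (Adm b (nrL L) (eL L) (plL K L)) := by
  intro m1 hm1 m2 hm2 Ω S₀ hΩ hS₀
  obtain rfl : m1 = borel _ := hm1.measurable_eq
  obtain rfl : m2 = borel _ := hm2.measurable_eq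
  obtain ⟨C, hC⟩ := L8.statementU (old Q) Ω S₀ hΩ hS₀
  refine ⟨C, ?_⟩
  rintro v 𝔫 h𝔫 hv r s m w' e' Λv hT h hh θ hθ t x d ht ⟨u, ω, hω, hx⟩ μ ρ hμ w S Λ B φ δ ⟨hfin, hcpt, hsupp, hmeas, hbdd, hnorm, hnonneg, hminors, hcont, htsupp, hpos, hnear⟩ X
    ⟨f, a, hf, rfl, hpl, hsz, rfl⟩ ν hν D D₀ D₁ hD hD₀ hD₁ M' F c' κ hF horth t' ht'
  have hT' : L8.HeOp (L1S.GamQ (L1S.HQ (old Q)) 𝔫 v r s) (L8.HvQ (old Q) 𝔫 v : Set (L1S.HQ (old Q))) w' e' Λv := by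
    have h1 := heOp_of hT
    rw [gamA_eq] at h1
    have h2 : {h : GQ Q | h.1 ∈ HG 𝔫 v (GL' b L)} = (L8.HvQ (old Q) 𝔫 v : Set (L1S.HQ (old Q))) := by
      rw [hg_eq]
      rfl
    rw [h2] at h1
    exact h1
  have hθ' : ∀ u ∈ L1S.GamHH (L1S.HQ (old Q)) 𝔫 v r s h, L1S.psiH (L1S.HQ (old Q)) θ u = 1 := fun u hu => hθ.2 u (by
    rw [gam_eq]
    exact hu)
  rw [gam_eq] at hD hF hD₀ hD₁
  -- the entries of `t` are units
  have hu : ∀ β, a β * (t⁻¹).1.1.1 (Sum.inr β) (Sum.inr β) = 1 := by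
    intro β
    have h1 : t.1.1.1 * (t⁻¹).1.1.1 = 1 := t.1.1.mul_inv
    have h2 := congrFun (congrFun h1 (Sum.inr β)) (Sum.inr β)
    rw [ht, Matrix.diagonal_mul, Matrix.one_apply_eq] at h2
    exact h2
  let a' : ι → (mixedEmbedding.mixedSpace L)ˣ := fun β => Units.mkOfMulEqOne _ _ (hu β)
  have k1 := hC v 𝔫 h𝔫 hv r s m w' e' Λv hT' h (hg_of 𝔫 v hh) f (fun j i => ⟨mc_of v (hf j i).1, mr_of v (hf j i).2⟩) θ hθ.1 hθ' t a' ht x ⟨u, ω, hω, by rw [hx]; rfl⟩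
  have k2 := @k1 μ ρ hμ w S Λ ⟨hfin, hmeas, hbdd, hcpt, hsupp, hnorm⟩ B hnonneg hminors φ hcont htsupp δ hpos hpl hnear (sz_of (a := a') 𝔫 v hsz)
  have key := @k2 ν hν D₀ hD₀ D₁ hD₁ D hD M' F c' κ (fun l => aut_of Q 𝔫 v r s (hF l)) horth t' ht'
  refine key.trans (le_of_eq ?_)
  simp only [nm_eq]
  rfl

/-- **The universal density theorem**. -/
theorem universal [P.IsReduced] [P.IsIrreducible] [IsGalois K L] : Universal Q :=
  @est _ _ _ _ _ _ _ _ _ _ _ _ _ _ _ _ _ _ _ Q _ _ _ _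

end

end Pool.Agent.Lib.L8.PU
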