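import Pool.Agent.Lib.L8.PM.Stm

/-!
# The universal density theorem for the globally generic spectrum of every quasi-split group: the statement

The notation is that of `Lib/L8/PM/Stm.lean` (the hybrid density theorem): `P` is an irreducible reduced crystallographic root system with base `b`, `L / K` a finite Galois extension of number fields and `Q : QS b K L` an
action of the Galois group on the Dynkin diagram of `P`; `G(K)` is the image in the adjoint group of the `K`-points of the simply connected quasi-split group of type `(P, Q)`, and `G` is its closure in `GL(L ⊗ ℝ)`.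

`Γ` is the arithmetic group of level `𝔫`, `r`, `s` (`Gam`), `v` a finite place of `K` prime to `𝔫`, and `H'` the group of the elements of `G(K)` over `𝓞_L[1/v]` congruent to `1` modulo `𝔫` (`HG`). By strong
approximation `Γ \ H'` is `K_v \ G(K_v)`, `K_v` the closure of `Γ` in `G(K_v)`: the open compact subgroup of level `r`, `s`. The Hecke operators are ALL the operators `(T f)(h) = ∑_a e_a f(w_a h)`, `w_a ∈ H'`, of the functions on
`Γ \ H'`, i.e. the elements of the Hecke algebra of `K_v`, and `Λ_v` bounds the norm of `T` on `ℓ²(Γ \ H')`, so `|t| ≤ Λ_v` for the eigenvalues `t` of `T` on the forms which are tempered at `v`. The Whittaker coefficients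
are taken at all points `(h, x)`, `h ∈ H'`, `x ∈ U t Ω`, `t` in the torus.
-/

namespace Pool.Agent.Lib.L8.PU

open MeasureTheory Matrix NumberField IsDedekindDomain Pool.Agent.Lib.L8.PM

noncomputable section

/-! ## 1. Groups -/

section groups

variable {G : Type} [Group G]

/-- The square of the norm of `f` in `ℓ²(Γ \ H')`: the supremum of the sums `∑ |f(x)|²` over the finite sets of elements `x ∈ H'` of different classes `Γ x`. -/
def nrm (Γ : Subgroup G) (H' : Set G) (f : G → ℂ) : ENNReal := ⨆ (R : Finset G) (_ : ∀ x ∈ R, x ∈ H') (_ : ∀ x ∈ R, ∀ y ∈ R, x * y⁻¹ ∈ Γ → x = y), ∑ x ∈ R, ‖f x‖ₑ ^ 2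

/-- **Hecke operators**: `(T f)(h) = ∑_a e_a f(w_a h)`, `w_a ∈ H'`, maps the functions on `Γ \ H'` to functions on `Γ \ H'`, and its norm on `ℓ²(Γ \ H')` is at most `Λ`. -/
structure HeOp (Γ : Subgroup G) (H' : Set G) {m : ℕ} (w : Fin m → G) (e : Fin m → ℂ) (Λ : ℝ) : Prop where
  mem : ∀ a, w a ∈ H'
  inv : ∀ f : G → ℂ, (∀ γ ∈ Γ, ∀ x, f (γ * x) = f x) → ∀ γ ∈ Γ, ∀ x ∈ H', ∑ a, e a * f (w a * (γ * x)) = ∑ a, e a * f (w a * x)
  norm : ∀ f : G → ℂ, (∀ γ ∈ Γ, ∀ x, f (γ * x) = f x) → nrm Γ H' (fun x => ∑ a, e a * f (w a * x)) ≤ ENNReal.ofReal (Λ ^ 2) * nrm Γ H' f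

/-- The group `h⁻¹ Γ h`. -/
def Cj (Γ : Subgroup G) (h : G) : Subgroup G := Γ.comap (MulAut.conj h).toMonoidHom

variable [MeasurableSpace G] [TopologicalSpace G]

/-- **The inequality** at the point `(h, x)`: for orthonormal `F_1, …, F_M` in `L²(Γ \ G)` which are eigenfunctions of the convolution operators of `φ` and `w ρ` (eigenvalues `c_l`, `κ_l`) and of the operator
`F ↦ ∑_a e_a F(w_a y)` (eigenvalues `t_l`): `vol(h⁻¹ Γ h ∩ U \ U) ∑_l |c_l κ_l t_l W(F_l)|² ≤ Y vol(Γ ∩ U \ U)`, `W(F)` the Whittaker coefficient of `y ↦ F(h y)` at `x` (mean value over `(h⁻¹ Γ h ∩ U) \ U`). -/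
def Bound (U Γ : Subgroup G) [MeasurableSpace U] (μ ρ : Measure G) (ν : Measure U) (φ w : G → ℂ) (ψ : U → ℂ) (x h : G) (m : ℕ) (w' : Fin m → G) (e : Fin m → ℂ) (Y : ℝ) : Prop :=
  ∀ (D : Set G) (D₀ D₁ : Set U), IsFundamentalDomain Γ D μ → IsFundamentalDomain (Γ.subgroupOf U) D₀ ν → IsFundamentalDomain ((Cj Γ h).subgroupOf U) D₁ ν → ∀ (M : ℕ) (F : Fin M → G → ℂ) (c κ : Fin M → ℂ),
    (∀ l, Aut Γ μ ρ D φ w (F l) (c l) (κ l)) → (∀ l k, ∫ x in D, star (F l x) * F k x ∂μ = if l = k then 1 else 0) → ∀ t : Fin M → ℂ, (∀ l y, ∑ a, e a * F l (w' a * y) = t l * F l y) →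
    (ν D₁).toReal * ∑ l, ‖c l * κ l * t l * Wh U ν D₁ ψ (fun y => F l (h * y)) x‖ ^ 2 ≤ Y * (ν D₀).toReal

end groups

/-! ## 2. Number fields -/

section fields

variable {K L : Type} [Field K] [NumberField K] [Field L] [NumberField L] [Algebra K L] {n : Type} [Fintype n] [DecidableEq n] (ht : n → ℤ) {A : Subgroup (GL n L)} {H : Subgroup A}
  {R : Type} [CommRing R] [TopologicalSpace R] [Algebra ℝ R] (p : L →+* R) {J : Type} [Fintype J] {V : Type} [Fintype V]

variable (K) in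
/-- **The universal density theorem for groups of matrices** (compare `PM.Est`). For compact sets `Ω` and `S₀` there is a constant `C` such that for all levels `𝔫`, `v`, `r`, `s` (`𝔫 ≠ 0` prime to `v`), Hecke operators `T`
given by `w'_a`, `e'_a` with the norm at most `Λ_v` on `ℓ²(Γ \ H')`, `h ∈ H'`, nondegenerate characters `ψ` given by `θ` and trivial on `h⁻¹ Γ h ∩ U`, diagonal matrices `t = diag(d)` in `G`, `x ∈ U t Ω`, test data and
admissible data (the matrices `w'_a h` and `(w'_a h)⁻¹`, `d`, `δ`, the numbers `R_i = ∏_y (B_(i,y) ^ 2 δ_y ^ k_i) ^ e_y` and the volume `X`) the inequality of `Bound` holds with `C Λ² Λ_v² ‖φ‖₂² X`. -/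
def Est {G₀ : Subgroup (GL n R)} {G : Subgroup G₀} (U : Subgroup G) (τ : H →* G) (a : J → n × n) (σ : (L ≃ₐ[K] L) → J → J) (nr : V → R → ℝ) (e : V → ℕ) (k : J → ℕ)
    (Adm : Ideal (𝓞 K) → HeightOneSpectrum (𝓞 K) → (m : ℕ) → (Fin m → Matrix n n L) → (Fin m → Matrix n n L) → (n → R) → (V → ℝ) → (J → ℝ) → ℝ → Prop) : Prop :=
  ∀ [MeasurableSpace G] [BorelSpace G] [MeasurableSpace U] [BorelSpace U] (Ω : Set (GL n R)) (S₀ : Set G), IsCompact Ω → IsCompact S₀ → ∃ C : ℝ,
    ∀ (v : HeightOneSpectrum (𝓞 K)) (𝔫 : Ideal (𝓞 K)), 𝔫 ≠ ⊥ → ¬𝔫 ≤ v.asIdeal → ∀ (r s m : ℕ) (w' : Fin m → H) (e' : Fin m → ℂ) (Λv : ℝ),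
    HeOp ((GamA 𝔫 v r s ht A).subgroupOf H) {h | h.1 ∈ HG 𝔫 v A} w' e' Λv → ∀ h : H, h.1 ∈ HG 𝔫 v A → ∀ θ : J → (R →ₗ[ℝ] ℝ), Gen U p (Cj (Gam 𝔫 v r s ht τ) (τ h)) a σ θ →
    ∀ (t x : G) (d : n → R), t.1.1.1 = Matrix.diagonal d → (∃ u : U, ∃ ω ∈ Ω, x.1.1 = u.1.1.1 * t.1.1 * ω) → ∀ (μ ρ : Measure G) [μ.IsHaarMeasure] (w : G → ℂ) (S : Set G) (Λ : ℝ) (B : J → V → ℝ) (φ : G → ℂ) (δ : V → ℝ),
    Test nr k S₀ μ ρ w S Λ B φ δ → ∀ X : ℝ, Adm 𝔫 v m (fun j => (w' j * h).1.1.1) (fun j => (w' j * h)⁻¹.1.1.1) d δ (fun i => ∏ y, (B i y ^ 2 * δ y ^ k i) ^ e y) X → ∀ (ν : Measure U) [ν.IsHaarMeasure],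
    Bound U (Gam 𝔫 v r s ht τ) μ ρ ν φ w (psi U a θ) x (τ h) m (fun j => τ (w' j)) e' (C * Λ ^ 2 * Λv ^ 2 * (∫ y, ‖φ y‖ ^ 2 ∂μ) * X)

variable (K H) in
/-- `Est` for the closure `G` of `H` in `GL(R)` (in the closure `G₀` of `A`) and its unipotent group `U`. -/
def EstCl [IsTopologicalRing R] (a : J → n × n) (σ : (L ≃ₐ[K] L) → J → J) (nr : V → R → ℝ) (e : V → ℕ) (k : J → ℕ)
    (Adm : Ideal (𝓞 K) → HeightOneSpectrum (𝓞 K) → (m : ℕ) → (Fin m → Matrix n n L) → (Fin m → Matrix n n L) → (n → R) → (V → ℝ) → (J → ℝ) → ℝ → Prop) : Prop :=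
  Est K ht p ((Uni ht (Cl (GeneralLinearGroup.map p) A)).subgroupOf (Cl (em (GeneralLinearGroup.map p) A) H)) (em (em (GeneralLinearGroup.map p) A) H) a σ nr e k Adm

end fields

/-! ## 3. Root systems -/

section roots

variable {ι M N : Type} [Fintype ι] [DecidableEq ι] [AddCommGroup M] [Module ℚ M] [AddCommGroup N] [Module ℚ N]
  {P : RootPairing ι ℚ M N} [P.IsCrystallographic] [P.IsRootSystem] (b : P.Base) {K L : Type} [Field K] [NumberField K] [Field L] [NumberField L] [Algebra K L]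

/-- The minors of `X` with the columns `Φ_i` are in `v ^ (-f)` (integral at `v` after multiplication with the elements of `v ^ f`). -/
def MC (v : HeightOneSpectrum (𝓞 K)) (i : b.support) (f : ℕ) (X : Matrix (b.support ⊕ ι) (b.support ⊕ ι) L) : Prop :=
  ∀ g : Phi b i → b.support ⊕ ι, ∀ y ∈ v.asIdeal ^ f, IntV v (algebraMap K L (y : K) * (X.submatrix g fun β : Phi b i => Sum.inr β.1).det)

/-- The minors of `X` with the rows `-Φ_i` are in `v ^ (-f)`. -/
def MR (v : HeightOneSpectrum (𝓞 K)) (i : b.support) (f : ℕ) (X : Matrix (b.support ⊕ ι) (b.support ⊕ ι) L) : Prop :=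
  ∀ g : Phi b i → b.support ⊕ ι, ∀ y ∈ v.asIdeal ^ f, IntV v (algebraMap K L (y : K) * (X.submatrix (fun β : Phi b i => Sum.inr (P.reflectionPerm β.1 β.1)) g).det)

/-- **The size condition** for the exponents `f_i` and the numbers `R_i`, with `q`, the level `N` and `E_i` for the torus element: for `w Φ_i = - Φ_j`: `q ^ (f_i + f_j) R_i ≤ N ^ |Φ_i| E_i E_j`, or for some simple root `α_l`
and `T ≥ m_l(β)` for all `β`: `(q ^ (f_i + f_j) R_i) ^ T ≤ N ^ P (E_i E_j) ^ T`, `P` the sum of the coefficients `m_l` of the roots in `Φ_i` and in `Φ_j`. -/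
def Sz (q N : ℝ) (E Rb : b.support → ℝ) (f : b.support → ℕ) : Prop :=
  ∀ i j, Opp b i j → q ^ (f i + f j) * Rb i ≤ N ^ (Phi b i).card * (E i * E j) ∨
    ∃ (l : b.support) (T : ℕ), (∀ β, mc b l β ≤ T) ∧ (q ^ (f i + f j) * Rb i) ^ T ≤ N ^ S2 b i j (mc b l) (mc b l) * (E i * E j) ^ T

variable {R : Type} [CommRing R] {V V' : Type} [Fintype V]

/-- **The admissible data** (`N = N(𝔫)`, `q = N(v)` the norms over `K`, `|z|` the norm on `R`, `g = [L : K]`): for some exponents `f_i` the minors of the matrices `Z_a` with the columns `Φ_i` and of the matrices `Z'_a` with the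
rows `-Φ_i` are in `v ^ (-f_i)`; `d` has the entries `a_β` at the roots and `1` at the zero weights; `δ_y` depends only on the place `pl(y)`; the `f_i` satisfy the size condition with `q ^ g`, `N ^ g`, `E_i = ∏_{β ∈ Φ_i} |a_β|` and
the numbers `R_i`; `X = (∏_{β > 0} δ |a_β|) ^ (1/g) / N ^ #{β > 0}`, `δ = ∏_y δ_y ^ e_y`. -/
def Adm (nr : V → R → ℝ) (e : V → ℕ) (pl : V → V') (𝔫 : Ideal (𝓞 K)) (v : HeightOneSpectrum (𝓞 K)) (m : ℕ) (Z Z' : Fin m → Matrix (b.support ⊕ ι) (b.support ⊕ ι) L) (d : b.support ⊕ ι → R) (δ : V → ℝ)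
    (Rb : b.support → ℝ) (X : ℝ) : Prop :=
  ∃ (f : b.support → ℕ) (a : ι → R), (∀ j i, MC b v i (f i) (Z j) ∧ MR b v i (f i) (Z' j)) ∧ d = Sum.elim (fun _ => 1) a ∧ (∀ y y', pl y = pl y' → δ y = δ y') ∧
    Sz b ((Ideal.absNorm v.asIdeal : ℝ) ^ Module.finrank K L) ((Ideal.absNorm 𝔫 : ℝ) ^ Module.finrank K L) (fun i => ∏ β ∈ Phi b i, nm nr e (a β)) Rb f ∧
    X = (∏ β with 0 < b.height β, (∏ y, δ y ^ e y) * nm nr e (a β)) ^ ((Module.finrank K L : ℝ)⁻¹) / (Ideal.absNorm 𝔫 : ℝ) ^ (Finset.univ.filter fun β => 0 < b.height β).card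

end roots

/-! ## 4. The statement -/

section statement

variable {ι M N : Type} [Fintype ι] [DecidableEq ι] [AddCommGroup M] [Module ℚ M] [AddCommGroup N] [Module ℚ N]
  {P : RootPairing ι ℚ M N} [P.IsCrystallographic] {b : P.Base} {K L : Type} [Field K] [NumberField K] [Field L] [NumberField L] [Algebra K L]

/-- **The universal density theorem** for the globally generic spectrum of the quasi-split simple group `G(K)` of type `(P, Q)` over `K` (the notation is that of `PM.Hybrid`). -/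
def Universal [P.IsRootSystem] (Q : QS b K L) : Prop :=
  EstCl K (Sum.elim (fun _ => 0) b.height)
    (Fix (Sum.elim (fun _ => 0) b.height) (Grp (RootPairing.GeckConstruction.e (b := b)) RootPairing.GeckConstruction.f L) fun s => Sum.map (sp Q s) (Q.act s))
    (mixedEmbedding L) (fun i => (Sum.inl i, Sum.inr (P.reflectionPerm i i))) (sp Q) (fun w z => mixedEmbedding.normAtPlace w z)
    (fun w : InfinitePlace L => w.mult) (fun i => (Phi b i).card) (Adm b (fun w z => mixedEmbedding.normAtPlace w z) (fun w : InfinitePlace L => w.mult) fun w => w.comap (algebraMap K L))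

end statement

end

end Pool.Agent.Lib.L8.PU
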